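import Mathlib

set_option autoImplicit false
set_option linter.unusedSectionVars false

open Pointwise

namespace Pool.Agent.Results.MP_a5fc84_co.AlgCovered

universe u

/-- `X` (finite or infinite) is an approximate subfield of the field `F`:
`0, 1 ∈ X`, `X = -X`, `X \ {0}` is equal to the set of inverses of its elements, and there is a
finite set `E` with `XX + X ⊆ EX ∩ (E + X)` (all operations are the elementwise ones). -/
structure IsApproximateSubfield {F : Type u} [Field F] (X : Set F) : Prop where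
  zero_mem : (0 : F) ∈ X
  neg_eq : X = -X
  one_mem : (1 : F) ∈ X
  inv_eq : X \ {0} = (X \ {0})⁻¹
  cover : ∃ E : Set F, E.Finite ∧ X * X + X ⊆ (E * X) ∩ (E + X)

/-- All products of at most `n` elements of `X`. -/
def prodsUpTo {F : Type u} [Field F] (n : ℕ) (X : Set F) : Set F :=
  {p | ∃ l : List F, l.length ≤ n ∧ (∀ x ∈ l, x ∈ X) ∧ p = l.prod}

/-- All sums of at most `n` elements of `A`. -/
def sumsUpTo {F : Type u} [Field F] (n : ℕ) (A : Set F) : Set F :=
  {s | ∃ l : List F, l.length ≤ n ∧ (∀ a ∈ l, a ∈ A) ∧ s = l.sum}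

/-- `S n X`: all sums of at most `n` terms, each term a product of at most `n` elements of `X`. -/
def S {F : Type u} [Field F] (n : ℕ) (X : Set F) : Set F := sumsUpTo n (prodsUpTo n X)

/-- `Alg n X`: all quotients `a / b` with `a, b ∈ S n X` and `b ≠ 0`. -/
def Alg {F : Type u} [Field F] (n : ℕ) (X : Set F) : Set F :=
  {c | ∃ a ∈ S n X, ∃ b ∈ S n X, b ≠ 0 ∧ c = a / b}

variable {F : Type u} [Field F] {X : Set F}

/-- covered by finitely many additive translates of `X` -/
def Cov (X A : Set F) : Prop := ∃ T : Set F, T.Finite ∧ A ⊆ T + X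

theorem Cov.mono {A B : Set F} (h : Cov X B) (hAB : A ⊆ B) : Cov X A := by
  obtain ⟨T, hT, h⟩ := h
  exact ⟨T, hT, hAB.trans h⟩

theorem Cov.union {A B : Set F} (hA : Cov X A) (hB : Cov X B) : Cov X (A ∪ B) := by
  obtain ⟨T, hT, h⟩ := hA
  obtain ⟨T', hT', h'⟩ := hB
  refine ⟨T ∪ T', hT.union hT', ?_⟩
  rw [Set.union_add]
  exact Set.union_subset_union h h'

theorem Cov.biUnion {ι : Type*} {s : Set ι} (hs : s.Finite) {A : ι → Set F}
    (h : ∀ i ∈ s, Cov X (A i)) : Cov X (⋃ i ∈ s, A i) := by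
  choose! T hT hTA using h
  refine ⟨⋃ i ∈ s, T i, hs.biUnion hT, ?_⟩
  intro x hx
  simp only [Set.mem_iUnion] at hx
  obtain ⟨i, hi, hx⟩ := hx
  obtain ⟨t, ht, y, hy, rfl⟩ := hTA i hi hx
  exact ⟨t, by simp only [Set.mem_iUnion]; exact ⟨i, hi, ht⟩, y, hy, rfl⟩

theorem finite_prods (hX : X.Finite) (n : ℕ) : (prodsUpTo n X).Finite := by
  induction n with
  | zero =>
    refine (Set.finite_singleton (1 : F)).subset ?_
    rintro _ ⟨l, hl, -, rfl⟩
    have : l = [] := List.length_eq_zero_iff.mp (by omega)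
    simp [this]
  | succ n ih =>
    refine ((hX.mul ih).union (Set.finite_singleton (1 : F))).subset ?_
    rintro _ ⟨l, hl, hlX, rfl⟩
    cases l with
    | nil => right; simp
    | cons a l =>
      left
      refine ⟨a, hlX a (by simp), l.prod, ⟨l, by simpa using hl, fun x hx => hlX x (by simp [hx]),
        rfl⟩, by simp⟩

theorem finite_sums {A : Set F} (hA : A.Finite) (n : ℕ) : (sumsUpTo n A).Finite := by
  induction n with
  | zero =>
    refine (Set.finite_singleton (0 : F)).subset ?_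
    rintro _ ⟨l, hl, -, rfl⟩
    have : l = [] := List.length_eq_zero_iff.mp (by omega)
    simp [this]
  | succ n ih =>
    refine ((hA.add ih).union (Set.finite_singleton (0 : F))).subset ?_
    rintro _ ⟨l, hl, hlX, rfl⟩
    cases l with
    | nil => right; simp
    | cons a l =>
      left
      refine ⟨a, hlX a (by simp), l.sum, ⟨l, by simpa using hl, fun x hx => hlX x (by simp [hx]),
        rfl⟩, by simp⟩

section

variable (hX : IsApproximateSubfield X)
include hX

theorem neg_mem' {x : F} (hx : x ∈ X) : -x ∈ X := by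
  have := hX.neg_eq
  rw [this]
  simpa using hx

theorem inv_mem' {x : F} (hx : x ∈ X) (h0 : x ≠ 0) : x⁻¹ ∈ X := by
  have h1 : x ∈ X \ {0} := ⟨hx, by simpa using h0⟩
  rw [hX.inv_eq] at h1
  exact h1.1

theorem add_sub_mul_add : X + X ⊆ X * X + X := by
  rintro _ ⟨x, hx, y, hy, rfl⟩
  exact ⟨x * 1, ⟨x, hx, 1, hX.one_mem, rfl⟩, y, hy, by simp⟩

theorem mul_sub_mul_add : X * X ⊆ X * X + X := by
  rintro _ ⟨x, hx, y, hy, rfl⟩
  exact ⟨x * y, ⟨x, hx, y, hy, rfl⟩, 0, hX.zero_mem, by simp⟩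

theorem cov_mul_add : Cov X (X * X + X) := by
  obtain ⟨E, hE, h⟩ := hX.cover
  exact ⟨E, hE, fun x hx => (h hx).2⟩

theorem cov_addXX : Cov X (X + X) := (cov_mul_add hX).mono (add_sub_mul_add hX)

theorem cov_mulXX : Cov X (X * X) := (cov_mul_add hX).mono (mul_sub_mul_add hX)

theorem cov_self : Cov X X := ⟨{0}, Set.finite_singleton _, by simp⟩

theorem Cov.add {A B : Set F} (hA : Cov X A) (hB : Cov X B) : Cov X (A + B) := by
  obtain ⟨T, hT, h⟩ := hA
  obtain ⟨T', hT', h'⟩ := hB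
  obtain ⟨E, hE, hh⟩ := cov_addXX hX
  refine ⟨T + T' + E, (hT.add hT').add hE, ?_⟩
  rintro _ ⟨a, ha, b, hb, rfl⟩
  obtain ⟨t, ht, x, hx, rfl⟩ := h ha
  obtain ⟨t', ht', x', hx', rfl⟩ := h' hb
  obtain ⟨e, he, y, hy, hey⟩ := hh ⟨x, hx, x', hx', rfl⟩
  refine ⟨t + t' + e, ⟨t + t', ⟨t, ht, t', ht', rfl⟩, e, he, rfl⟩, y, hy, ?_⟩
  simp only at hey ⊢
  linear_combination hey

theorem cov_finite {A : Set F} (hA : A.Finite) : Cov X A := by
  refine ⟨A, hA, fun a ha => ⟨a, ha, 0, hX.zero_mem, by simp⟩⟩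

/-- multiples of `X` by elements of the ring generated by `X` are covered -/
theorem cov_smul {r : F} (hr : r ∈ Subring.closure X) : Cov X ({r} * X) := by
  induction hr using Subring.closure_induction with
  | mem x hx =>
    exact (cov_mulXX hX).mono (Set.mul_subset_mul_right (by simpa using hx))
  | zero =>
    refine (cov_finite hX (A := {0}) (Set.finite_singleton _)).mono ?_
    rintro _ ⟨a, rfl, x, hx, rfl⟩
    simp
  | one =>
    refine (cov_self hX).mono ?_
    rintro _ ⟨a, rfl, x, hx, rfl⟩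
    simpa using hx
  | add r s _ _ hr hs =>
    refine (Cov.add hX hr hs).mono ?_
    rintro _ ⟨a, rfl, x, hx, rfl⟩
    exact ⟨r * x, ⟨r, rfl, x, hx, rfl⟩, s * x, ⟨s, rfl, x, hx, rfl⟩, by simp only; ring⟩
  | neg r _ hr =>
    refine hr.mono ?_
    rintro _ ⟨a, rfl, x, hx, rfl⟩
    exact ⟨r, rfl, -x, neg_mem' hX hx, by simp⟩
  | mul r s _ _ hr hs =>
    obtain ⟨T, hT, h⟩ := hs
    refine (Cov.add hX (cov_finite hX (hT.image (fun t => r * t))) hr).mono ?_
    rintro _ ⟨a, rfl, x, hx, rfl⟩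
    obtain ⟨t, ht, y, hy, hty⟩ := h ⟨s, rfl, x, hx, rfl⟩
    refine ⟨r * t, ⟨t, ht, rfl⟩, r * y, ⟨r, rfl, y, hy, rfl⟩, ?_⟩
    simp only at hty ⊢
    rw [← mul_add, hty, mul_assoc]

theorem cov_in_R {A : Set F} (hA : Cov X A) (hAR : A ⊆ Subring.closure X) :
    ∃ T : Set F, T.Finite ∧ T ⊆ Subring.closure X ∧ A ⊆ T + X := by
  obtain ⟨T, hT, h⟩ := hA
  refine ⟨T ∩ Subring.closure X, hT.subset Set.inter_subset_left, Set.inter_subset_right, ?_⟩
  intro a ha
  obtain ⟨t, ht, x, hx, rfl⟩ := h ha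
  refine ⟨t, ⟨ht, ?_⟩, x, hx, rfl⟩
  have h1 : t + x ∈ Subring.closure X := hAR ha
  have h2 : x ∈ Subring.closure X := Subring.subset_closure hx
  have := Subring.sub_mem _ h1 h2
  simpa using this

theorem Cov.mul {A B : Set F} (hA : Cov X A) (hB : Cov X B) (hAR : A ⊆ Subring.closure X)
    (hBR : B ⊆ Subring.closure X) : Cov X (A * B) := by
  obtain ⟨T, hT, hTR, h⟩ := cov_in_R hX hA hAR
  obtain ⟨T', hT', hTR', h'⟩ := cov_in_R hX hB hBR
  have h1 : Cov X (⋃ t ∈ T, {t} * X) := Cov.biUnion hT (fun t ht => cov_smul hX (hTR ht))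
  have h2 : Cov X (⋃ t ∈ T', {t} * X) := Cov.biUnion hT' (fun t ht => cov_smul hX (hTR' ht))
  have h3 := Cov.add hX (Cov.add hX (Cov.add hX (cov_finite hX (hT.mul hT')) h1) h2)
    (cov_mulXX hX)
  refine h3.mono ?_
  rintro _ ⟨a, ha, b, hb, rfl⟩
  obtain ⟨t, ht, x, hx, rfl⟩ := h ha
  obtain ⟨t', ht', x', hx', rfl⟩ := h' hb
  refine ⟨t * t' + t * x' + t' * x, ⟨t * t' + t * x', ⟨t * t', ⟨t, ht, t', ht', rfl⟩, t * x', ?_,
    rfl⟩, t' * x, ?_, rfl⟩, x * x', ⟨x, hx, x', hx', rfl⟩, ?_⟩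
  · simp only [Set.mem_iUnion]
    exact ⟨t, ht, t, rfl, x', hx', rfl⟩
  · simp only [Set.mem_iUnion]
    exact ⟨t', ht', t', rfl, x, hx, rfl⟩
  · simp only
    ring

theorem prods_sub (n : ℕ) : prodsUpTo n X ⊆ Subring.closure X := by
  rintro _ ⟨l, _, hl, rfl⟩
  exact Subring.list_prod_mem _ (fun x hx => Subring.subset_closure (hl x hx))

theorem sums_sub (n : ℕ) {A : Set F} (hA : A ⊆ Subring.closure X) :
    sumsUpTo n A ⊆ Subring.closure X := by
  rintro _ ⟨l, _, hl, rfl⟩
  exact Subring.list_sum_mem _ (fun x hx => hA (hl x hx))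

theorem S_sub (n : ℕ) : S n X ⊆ Subring.closure X := sums_sub hX n (prods_sub hX n)

theorem cov_prods (n : ℕ) : Cov X (prodsUpTo n X) := by
  induction n with
  | zero =>
    refine (cov_finite hX (A := {1}) (Set.finite_singleton _)).mono ?_
    rintro _ ⟨l, hl, -, rfl⟩
    have : l = [] := List.length_eq_zero_iff.mp (by omega)
    simp [this]
  | succ n ih =>
    refine ((Cov.mul hX (cov_self hX) ih Subring.subset_closure (prods_sub hX n)).union
      (cov_finite hX (A := {1}) (Set.finite_singleton _))).mono ?_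
    rintro _ ⟨l, hl, hlX, rfl⟩
    cases l with
    | nil => right; simp
    | cons a l =>
      left
      refine ⟨a, hlX a (by simp), l.prod, ⟨l, by simpa using hl, fun x hx => hlX x (by simp [hx]),
        rfl⟩, by simp⟩

theorem cov_sums {A : Set F} (hA : Cov X A) (n : ℕ) : Cov X (sumsUpTo n A) := by
  induction n with
  | zero =>
    refine (cov_finite hX (A := {0}) (Set.finite_singleton _)).mono ?_
    rintro _ ⟨l, hl, -, rfl⟩
    have : l = [] := List.length_eq_zero_iff.mp (by omega)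
    simp [this]
  | succ n ih =>
    refine ((Cov.add hX hA ih).union
      (cov_finite hX (A := {0}) (Set.finite_singleton _))).mono ?_
    rintro _ ⟨l, hl, hlX, rfl⟩
    cases l with
    | nil => right; simp
    | cons a l =>
      left
      refine ⟨a, hlX a (by simp), l.sum, ⟨l, by simpa using hl, fun x hx => hlX x (by simp [hx]),
        rfl⟩, by simp⟩

theorem cov_S (n : ℕ) : Cov X (S n X) := cov_sums hX (cov_prods hX n) n

theorem mul_S {x : F} (hx : x ∈ X) {n : ℕ} {s : F} (hs : s ∈ S n X) : x * s ∈ S (n + 1) X := by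
  obtain ⟨l, hl, hlX, rfl⟩ := hs
  refine ⟨l.map (fun y => x * y), by simp; omega, ?_, ?_⟩
  · intro a ha
    simp only [List.mem_map] at ha
    obtain ⟨b, hb, rfl⟩ := ha
    obtain ⟨m, hm, hmX, rfl⟩ := hlX b hb
    refine ⟨x :: m, by simp; omega, ?_, by simp⟩
    intro y hy
    simp only [List.mem_cons] at hy
    rcases hy with rfl | hy
    · exact hx
    · exact hmX y hy
  · rw [List.sum_map_mul_left]
    simp

theorem S_mono {n m : ℕ} (h : n ≤ m) : S n X ⊆ S m X := by
  rintro _ ⟨l, hl, hlX, rfl⟩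
  refine ⟨l, hl.trans h, ?_, rfl⟩
  intro a ha
  obtain ⟨k, hk, hkX, rfl⟩ := hlX a ha
  exact ⟨k, hk.trans h, hkX, rfl⟩

theorem exists_S {r : F} (hr : r ∈ Subring.closure X) : ∃ n, r ∈ S n X := by
  obtain ⟨L, hL, rfl⟩ := Subring.exists_list_of_mem_closure hr
  obtain ⟨N, hN⟩ : ∃ N : ℕ, ∀ t ∈ L, t.length ≤ N := by
    clear hL hr
    induction L with
    | nil => exact ⟨0, by simp⟩
    | cons a L ih =>
      obtain ⟨N, hN⟩ := ih
      refine ⟨max a.length N, ?_⟩
      intro t ht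
      simp only [List.mem_cons] at ht
      rcases ht with rfl | ht
      · exact le_max_left _ _
      · exact (hN t ht).trans (le_max_right _ _)
  refine ⟨max N L.length, L.map List.prod, by simp, ?_, rfl⟩
  intro a ha
  simp only [List.mem_map] at ha
  obtain ⟨t, ht, rfl⟩ := ha
  refine ⟨t, (hN t ht).trans (le_max_left _ _), ?_, rfl⟩
  intro x hx
  rcases hL t ht x hx with h | h
  · exact h
  · rw [h]
    exact neg_mem' hX hX.one_mem

/-- the bounded set `Y = (X + X) + (XX + XX)` -/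
theorem cov_Y : Cov X (X + X + (X * X + X * X)) :=
  Cov.add hX (cov_addXX hX) (Cov.add hX (cov_mulXX hX) (cov_mulXX hX))

theorem exists_small (hinf : X.Infinite) (n : ℕ) :
    ∃ a : F, a ≠ 0 ∧ a ∈ X + X ∧ ∀ s ∈ S n X, a * s ∈ X + X + (X * X + X * X) := by
  obtain ⟨T, hT, hTR, h⟩ := cov_in_R hX (cov_S hX n) (S_sub hX n)
  have h1 : ∀ t ∈ T, Cov X ({t} * X) := fun t ht => cov_smul hX (hTR ht)
  choose! K hK hKX using h1
  -- colour each x in X by the function t ↦ index of the translate containing t * x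
  have h2 : ∀ x ∈ X, ∀ t ∈ T, ∃ k ∈ K t, t * x - k ∈ X := by
    intro x hx t ht
    obtain ⟨k, hk, y, hy, hky⟩ := hKX t ht ⟨t, rfl, x, hx, rfl⟩
    refine ⟨k, hk, ?_⟩
    have : t * x - k = y := by
      simp only at hky
      rw [← hky]; ring
    rwa [this]
  choose! c hcK hcX using h2
  have : Finite T := hT.to_subtype
  have hfin : (Set.range (fun x : X => fun t : T => c x t)).Finite := by
    refine (Set.Finite.pi' (fun t : T => hK t t.2)).subset ?_
    rintro _ ⟨x, rfl⟩ t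
    exact hcK x x.2 t t.2
  have : Infinite X := hinf.to_subtype
  have := hfin.to_subtype
  obtain ⟨x, y, hxy, hc⟩ := Finite.exists_ne_map_eq_of_infinite
    (Set.rangeFactorization (fun x : X => fun t : T => c x t))
  have hc' : ∀ t ∈ T, c x t = c y t := by
    intro t ht
    have := congrArg Subtype.val hc
    exact congrFun this ⟨t, ht⟩
  have hxy' : (x : F) ≠ y := fun h => hxy (Subtype.ext h)
  refine ⟨x - y, sub_ne_zero.mpr hxy', ⟨x, x.2, -y, neg_mem' hX y.2, by ring⟩, ?_⟩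
  intro s hs
  obtain ⟨t, ht, z, hz, rfl⟩ := h hs
  have e1 := hcX x x.2 t ht
  have e2 := hcX y y.2 t ht
  refine ⟨(t * x - c x t) + -(t * y - c y t), ⟨_, e1, _, neg_mem' hX e2, rfl⟩,
    x * z + (-y) * z, ⟨x * z, ⟨x, x.2, z, hz, rfl⟩, (-y) * z, ⟨-y, neg_mem' hX y.2, z, hz, rfl⟩,
    rfl⟩, ?_⟩
  simp only
  rw [hc' t ht]
  ring

theorem exists_e (hinf : X.Infinite) : ∃ e : F, e ≠ 0 ∧
    ∀ r ∈ Subring.closure X, e * r ∈ X + X + (X * X + X * X) := by
  obtain ⟨E, hE, h⟩ := hX.cover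
  have h1 : ∀ n : ℕ, ∃ e ∈ E, e ≠ 0 ∧ ∀ s ∈ S n X, e * s ∈ X + X + (X * X + X * X) := by
    intro n
    obtain ⟨a, ha0, haX, ha⟩ := exists_small hX hinf (n + 1)
    obtain ⟨e, he, x, hx, hex⟩ := (h (add_sub_mul_add hX haX)).1
    simp only at hex
    have hx0 : x ≠ 0 := by rintro rfl; apply ha0; rw [← hex]; simp
    have he0 : e ≠ 0 := by rintro rfl; apply ha0; rw [← hex]; simp
    refine ⟨e, he, he0, ?_⟩
    intro s hs
    have h2 := ha _ (mul_S hX (inv_mem' hX hx hx0) hs)
    have h3 : a * (x⁻¹ * s) = e * s := by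
      rw [← hex]
      field_simp
    rwa [h3] at h2
  choose g hgE hg0 hg using h1
  have := hE.to_subtype
  obtain ⟨⟨e, he⟩, hinf'⟩ := Finite.exists_infinite_fiber (fun n : ℕ => (⟨g n, hgE n⟩ : E))
  have hunb : ∀ n : ℕ, ∃ m ≥ n, g m = e := by
    intro n
    have := (Set.infinite_coe_iff.mp hinf').exists_gt n
    obtain ⟨m, hm, hnm⟩ := this
    refine ⟨m, hnm.le, ?_⟩
    have := (Set.mem_preimage.mp hm)
    exact congrArg Subtype.val this
  refine ⟨e, ?_, ?_⟩
  · obtain ⟨m, -, rfl⟩ := hunb 0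
    exact hg0 m
  · intro r hr
    obtain ⟨n, hn⟩ := exists_S hX hr
    obtain ⟨m, hm, rfl⟩ := hunb n
    exact hg m r (S_mono hX hm hn)

/-- For infinite `X` the ring generated by `X` is a field and it is equal to
`(X + X) + (XX + XX)`. -/
theorem ring_inv (hinf : X.Infinite) {r : F} (hr : r ∈ Subring.closure X) :
    r⁻¹ ∈ Subring.closure X ∧ r ∈ X + X + (X * X + X * X) := by
  obtain ⟨e, he0, he⟩ := exists_e hX hinf
  obtain ⟨E, hE, hEX⟩ := hX.cover
  obtain ⟨T, hT, hTX⟩ := cov_Y hX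
  have hYR : X + X + (X * X + X * X) ⊆ Subring.closure X := by
    rintro _ ⟨_, ⟨a, ha, b, hb, rfl⟩, _, ⟨_, ⟨c, hc, d, hd, rfl⟩, _, ⟨f, hf, g, hg, rfl⟩, rfl⟩, rfl⟩
    exact add_mem (add_mem (Subring.subset_closure ha) (Subring.subset_closure hb))
      (add_mem (mul_mem (Subring.subset_closure hc) (Subring.subset_closure hd))
        (mul_mem (Subring.subset_closure hf) (Subring.subset_closure hg)))
  have heR : e ∈ Subring.closure X := by
    have := hYR (he 1 (one_mem _))
    simpa using this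
  -- every nonzero multiple `j * R` inside `e * R` meets `E \ {0}`
  have key : ∀ j ∈ Subring.closure X, j ≠ 0 →
      ∃ s ∈ Subring.closure X, e * j * s ∈ E ∧ e * j * s ≠ 0 := by
    intro j hj hj0
    have hmem : ∀ x : X, ∃ t ∈ T, e * j * x - t ∈ X := by
      intro x
      have h1 := hTX (he (j * x) (mul_mem hj (Subring.subset_closure x.2)))
      obtain ⟨t, ht, y, hy, hty⟩ := h1
      refine ⟨t, ht, ?_⟩
      have : e * j * x - t = y := by
        simp only at hty
        rw [mul_assoc, ← hty]; ring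
      rwa [this]
    choose c hcT hcX using hmem
    have := hT.to_subtype
    have : Infinite X := hinf.to_subtype
    obtain ⟨x, y, hxy, hc⟩ := Finite.exists_ne_map_eq_of_infinite
      (fun x : X => (⟨c x, hcT x⟩ : T))
    have hc' : c x = c y := congrArg Subtype.val hc
    have hxy' : (x : F) ≠ y := fun h => hxy (Subtype.ext h)
    have hd : e * j * x - e * j * y ∈ X + X :=
      ⟨_, hcX x, _, neg_mem' hX (hcX y), by simp only; rw [hc']; ring⟩
    obtain ⟨e', he', z, hz, hez⟩ := (hEX (add_sub_mul_add hX hd)).1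
    simp only at hez
    have hne : e * j * (x - y) ≠ 0 :=
      mul_ne_zero (mul_ne_zero he0 hj0) (sub_ne_zero.mpr hxy')
    have hz0 : z ≠ 0 := by
      rintro rfl
      apply hne
      rw [mul_sub, ← hez]; simp
    have he'0 : e' ≠ 0 := by
      rintro rfl
      apply hne
      rw [mul_sub, ← hez]; simp
    have heq : e * j * ((x - y) * z⁻¹) = e' := by
      rw [← mul_assoc, mul_sub, ← hez]
      field_simp
    refine ⟨(x - y) * z⁻¹, mul_mem (sub_mem (Subring.subset_closure x.2)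
      (Subring.subset_closure y.2)) (Subring.subset_closure (inv_mem' hX hz hz0)), ?_, ?_⟩
    · rw [heq]; exact he'
    · rw [heq]; exact he'0
  -- the finite set of nonzero elements of `E` lying in `e * R`
  classical
  let Z : Finset F := hE.toFinset.filter (fun z => z ≠ 0 ∧ ∃ s ∈ Subring.closure X, z = e * s)
  have hZ : ∀ z ∈ Z, z ∈ E ∧ z ≠ 0 ∧ ∃ s ∈ Subring.closure X, z = e * s := by
    intro z hz
    simpa [Z] using hz
  have hZR : ∀ z ∈ Z, z ∈ Subring.closure X := by
    intro z hz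
    obtain ⟨-, -, s, hs, rfl⟩ := hZ z hz
    exact mul_mem heR hs
  have hinvR : ∀ q ∈ Subring.closure X, q ≠ 0 → q⁻¹ ∈ Subring.closure X := by
    intro q hq hq0
    have hP : (∏ z ∈ Z, z) ∈ Subring.closure X := prod_mem (fun z hz => hZR z hz)
    have hP0 : (∏ z ∈ Z, z) ≠ 0 := Finset.prod_ne_zero_iff.mpr (fun z hz => (hZ z hz).2.1)
    obtain ⟨s, hs, hsE, hs0⟩ := key (q * ∏ z ∈ Z, z) (mul_mem hq hP) (mul_ne_zero hq0 hP0)
    have hz : e * (q * ∏ z ∈ Z, z) * s ∈ Z := by
      simp only [Z, Finset.mem_filter, Set.Finite.mem_toFinset]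
      exact ⟨hsE, hs0, (q * ∏ z ∈ Z, z) * s, mul_mem (mul_mem hq hP) hs, by ring⟩
    set w := e * (q * ∏ z ∈ Z, z) * s with hw
    have hprod : (∏ z ∈ Z, z) = w * ∏ z ∈ Z.erase w, z := (Finset.mul_prod_erase Z id hz).symm
    have h1 : q * (e * (∏ z ∈ Z.erase w, z) * s) = 1 := by
      have h2 : w * (q * (e * (∏ z ∈ Z.erase w, z) * s)) = w := by
        calc w * (q * (e * (∏ z ∈ Z.erase w, z) * s))
            = e * (q * (w * ∏ z ∈ Z.erase w, z)) * s := by ring
          _ = w := by rw [← hprod]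
      exact mul_left_cancel₀ hs0 (by rw [h2, mul_one])
    have h3 : q⁻¹ = e * (∏ z ∈ Z.erase w, z) * s := (eq_inv_of_mul_eq_one_right h1).symm
    rw [h3]
    exact mul_mem (mul_mem heR (prod_mem (fun z hz => hZR z (Finset.mem_of_mem_erase hz)))) hs
  refine ⟨?_, ?_⟩
  · by_cases hr0 : r = 0
    · rw [hr0, inv_zero]; exact zero_mem _
    · exact hinvR r hr hr0
  · have h1 := he (e⁻¹ * r) (mul_mem (hinvR e heR he0) hr)
    rwa [← mul_assoc, mul_inv_cancel₀ he0, one_mul] at h1

end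

/-- **Main theorem.**  For every field `F`, every approximate subfield `X` of `F` (finite or
infinite) and every `n ≥ 1`, the set `Alg n X` is covered by finitely many additive translates
of `X`. -/
theorem result (F : Type u) [Field F] (X : Set F) (hX : IsApproximateSubfield X) (n : ℕ)
    (_hn : 1 ≤ n) : ∃ T : Set F, T.Finite ∧ Alg n X ⊆ T + X := by
  by_cases hfin : X.Finite
  · have hS : (S n X).Finite := finite_sums (finite_prods hfin n) n
    have hA : (Alg n X).Finite := by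
      refine (hS.div hS).subset ?_
      rintro _ ⟨a, ha, b, hb, -, rfl⟩
      exact ⟨a, ha, b, hb, rfl⟩
    exact ⟨Alg n X, hA, fun a ha => ⟨a, ha, 0, hX.zero_mem, by simp⟩⟩
  · have hinf : X.Infinite := hfin
    obtain ⟨T, hT, hTX⟩ := cov_Y hX
    refine ⟨T, hT, ?_⟩
    rintro _ ⟨a, ha, b, hb, hb0, rfl⟩
    have haR := S_sub hX n ha
    have hbR := S_sub hX n hb
    have : a / b ∈ Subring.closure X := by
      rw [div_eq_mul_inv]
      exact mul_mem haR (ring_inv hX hinf hbR).1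
    exact hTX (ring_inv hX hinf this).2

end Pool.Agent.Results.MP_a5fc84_co.AlgCovered
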